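import Pool.Agent.H560.SQ.Stm
import Pool.Agent.H985.Chow.RT
import Pool.Agent.H985.KP.Loc2
import Pool.Agent.H249.SI.Fib

/-!
Task ADDI of project SQ (helper560): the phase at infinity is additive (helper980).
-/

set_option autoImplicit false

namespace Pool.Agent.H980.SQ

open Polynomial
open Pool.Agent.H560.SQ
open Pool.Agent.H985.Chow (lc)
open Pool.Agent.H985.Chow.RT
open Pool.Agent.H985.KP (sg)

variable {K : Type} [Field K] [CharP K 2]

lemma coeff_sq (r : K[X]) (n : ℕ) :
    (r ^ 2).coeff n = (if 2 ∣ n then r.coeff (n / 2) else 0) ^ 2 := by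
  have : Fact (Nat.Prime 2) := ⟨Nat.prime_two⟩
  have : ExpChar K 2 := inferInstance
  rw [← map_frobenius_expand (R := K) 2 (f := r), coeff_map, coeff_expand (by norm_num),
    frobenius_def]

lemma dec (D N : K[X]) : N ^ 2 = D ^ 2 * (N /ₘ D) ^ 2 + (N %ₘ D) ^ 2 := by
  have h := Polynomial.modByMonic_add_div N D
  have h1 : (N %ₘ D + D * (N /ₘ D)) ^ 2 = N ^ 2 := by rw [h]
  rw [← h1, CharTwo.add_sq]
  ring

omit [CharP K 2] in
lemma deg_mod {D : K[X]} (hD : D.Monic) (h : D.natDegree ≠ 0) (N : K[X]) :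
    (N %ₘ D).natDegree < D.natDegree := by
  refine Polynomial.natDegree_modByMonic_lt N hD ?_
  rintro rfl
  exact h natDegree_one

lemma lc_sq {D : K[X]} (hD : D.Monic) (N : K[X]) : lc (D ^ 2) (N ^ 2) = 0 := by
  by_cases h0 : D.natDegree = 0
  · rw [(hD.natDegree_eq_zero).1 h0, one_pow]
    exact lc_dvd monic_one _ (one_dvd _)
  · have h1 := deg_mod hD h0 N
    have hd : (D ^ 2).natDegree = 2 * D.natDegree := hD.natDegree_pow 2
    rw [dec D N, lc_add, lc_dvd (hD.pow 2) _ (dvd_mul_right _ _), zero_add, lc_of_deg (hD.pow 2), hd,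
      coeff_sq, if_neg (by omega)]
    · norm_num
    · rw [hd, natDegree_pow]
      omega

lemma lc_X_sq {D : K[X]} (hD : D.Monic) (N : K[X]) : lc (D ^ 2) (X * N ^ 2) = (lc D N) ^ 2 := by
  by_cases h0 : D.natDegree = 0
  · rw [(hD.natDegree_eq_zero).1 h0, one_pow, lc_dvd monic_one _ (one_dvd _),
      lc_dvd monic_one _ (one_dvd _)]
    norm_num
  · have h1 := deg_mod hD h0 N
    have hd : (D ^ 2).natDegree = 2 * D.natDegree := hD.natDegree_pow 2
    have e1 : X * N ^ 2 = D ^ 2 * (X * (N /ₘ D) ^ 2) + X * (N %ₘ D) ^ 2 := by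
      rw [dec D N]; ring
    have e2 : lc D N = (N %ₘ D).coeff (D.natDegree - 1) := rfl
    rw [e1, lc_add, lc_dvd (hD.pow 2) _ (dvd_mul_right _ _), zero_add, lc_of_deg (hD.pow 2), hd, e2,
      show 2 * D.natDegree - 1 = (2 * D.natDegree - 2) + 1 by omega, coeff_X_mul, coeff_sq,
      if_pos (by omega), show (2 * D.natDegree - 2) / 2 = D.natDegree - 1 by omega]
    rw [hd]
    refine lt_of_le_of_lt natDegree_mul_le ?_
    rw [natDegree_X, natDegree_pow]
    omega

/-- the first part of the first term vanishes -/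
lemma first_zero [Fintype K] {g : K[X]} (hg : g.Monic) (a : K[X]) :
    lc (g ^ 4) (a * derivative a * (derivative a) ^ 2) = 0 := by
  obtain ⟨p, r, h⟩ := Pool.Agent.H249.SI.exists_dec a
  have hr : derivative a = r ^ 2 := by rw [h]; exact Pool.Agent.H249.SI.deriv_G p r
  have e1 : a * derivative a * (derivative a) ^ 2 = (p * r ^ 3) ^ 2 + X * ((r ^ 2) ^ 2) ^ 2 := by
    rw [hr, h]; ring
  have e2 : g ^ 4 = (g ^ 2) ^ 2 := by ring
  rw [e1, e2, lc_add, lc_sq (hg.pow 2), lc_X_sq (hg.pow 2), lc_sq hg]
  norm_num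

lemma two_eq : (2 : K[X]) = 0 := CharTwo.two_eq_zero

/-- the second term is affine -/
lemma second {d : ℕ} {g a x : K[X]} (hg : g.Monic) (ha : a.Monic) (hd : a.natDegree = d)
    (hgd : g.natDegree < d) (hx : x.natDegree ≤ g.natDegree) :
    lc (g ^ 2 * (a + x)) (X * (derivative (a + x)) ^ 3) =
      lc (g ^ 2 * a) (X * (derivative a) ^ 3) +
        lc (g ^ 2 * a ^ 2) (X * (x * (derivative a) ^ 3 + a * (derivative a) ^ 2 * derivative x)) := by
  have hax : (a + x).Monic := by
    apply ha.add_of_left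
    apply degree_lt_degree
    omega
  have haxd : (a + x).natDegree = d := by
    rw [natDegree_add_eq_left_of_natDegree_lt (by omega), hd]
  have hD : (g ^ 2 * a ^ 2 * (a + x)).Monic := ((hg.pow 2).mul (ha.pow 2)).mul hax
  have hDd : (g ^ 2 * a ^ 2 * (a + x)).natDegree = 2 * g.natDegree + 3 * d := by
    rw [((hg.pow 2).mul (ha.pow 2)).natDegree_mul hax, (hg.pow 2).natDegree_mul (ha.pow 2),
      hg.natDegree_pow, ha.natDegree_pow, haxd, hd]
    ring
  have e1 : lc (g ^ 2 * (a + x)) (X * (derivative (a + x)) ^ 3) =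
      lc (g ^ 2 * a ^ 2 * (a + x)) (X * (derivative (a + x)) ^ 3 * a ^ 2) := by
    rw [← lc_mul ((hg.pow 2).mul hax) (ha.pow 2)]
    congr 1
    ring
  have e2 : lc (g ^ 2 * a) (X * (derivative a) ^ 3) =
      lc (g ^ 2 * a ^ 2 * (a + x)) (X * (derivative a) ^ 3 * (a * (a + x))) := by
    rw [← lc_mul ((hg.pow 2).mul ha) (ha.mul hax)]
    congr 1
    ring
  have e3 : lc (g ^ 2 * a ^ 2) (X * (x * (derivative a) ^ 3 + a * (derivative a) ^ 2 * derivative x)) =
      lc (g ^ 2 * a ^ 2 * (a + x))
        (X * (x * (derivative a) ^ 3 + a * (derivative a) ^ 2 * derivative x) * (a + x)) := by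
    rw [← lc_mul ((hg.pow 2).mul (ha.pow 2)) hax]
  rw [e1, e2, e3, ← lc_add]
  have e4 : X * (derivative (a + x)) ^ 3 * a ^ 2 =
      (X * (derivative a) ^ 3 * (a * (a + x)) +
        X * (x * (derivative a) ^ 3 + a * (derivative a) ^ 2 * derivative x) * (a + x)) +
      (X * a ^ 2 * derivative a * (derivative x) ^ 2 + X * a ^ 2 * (derivative x) ^ 3 +
        X * x ^ 2 * (derivative a) ^ 3 + X * a * x * (derivative a) ^ 2 * derivative x) := by
    rw [derivative_add]
    linear_combination (X * a ^ 2 * (derivative a) ^ 2 * derivative x +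
      X * a ^ 2 * derivative a * (derivative x) ^ 2 -
      X * a * x * (derivative a) ^ 3 - X * x ^ 2 * (derivative a) ^ 3 -
      X * a * x * (derivative a) ^ 2 * derivative x) * (two_eq (K := K))
  rw [e4, lc_add]
  have hsm : lc (g ^ 2 * a ^ 2 * (a + x))
      (X * a ^ 2 * derivative a * (derivative x) ^ 2 + X * a ^ 2 * (derivative x) ^ 3 +
        X * x ^ 2 * (derivative a) ^ 3 + X * a * x * (derivative a) ^ 2 * derivative x) = 0 := by
    apply lc_small hD
    rw [hDd]
    have hda : (derivative a).natDegree ≤ d - 1 := hd ▸ natDegree_derivative_le a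
    have hX := natDegree_X_le (R := K)
    set m := x.natDegree with hm
    have b3 : (X * x ^ 2 * (derivative a) ^ 3).natDegree ≤ 3 * d + 2 * m - 2 := by
      have := natDegree_mul_le_of_le (natDegree_mul_le_of_le hX
        (natDegree_pow_le_of_le 2 hm.symm.le)) (natDegree_pow_le_of_le 3 hda)
      omega
    rcases Nat.eq_zero_or_pos m with h0 | h0
    · have hx' : derivative x = 0 := derivative_of_natDegree_zero (by omega)
      rw [hx']
      have e5 : X * a ^ 2 * derivative a * (0 : K[X]) ^ 2 + X * a ^ 2 * 0 ^ 3 +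
        X * x ^ 2 * (derivative a) ^ 3 + X * a * x * (derivative a) ^ 2 * 0 =
        X * x ^ 2 * (derivative a) ^ 3 := by ring
      rw [e5]
      omega
    · have hdx : (derivative x).natDegree ≤ m - 1 := natDegree_derivative_le x
      have ha2 : (a ^ 2).natDegree ≤ 2 * d := (natDegree_pow_le_of_le 2 hd.le)
      have b1 : (X * a ^ 2 * derivative a * (derivative x) ^ 2).natDegree ≤ 3 * d + 2 * m - 2 := by
        have := natDegree_mul_le_of_le (natDegree_mul_le_of_le (natDegree_mul_le_of_le hX ha2) hda)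
          (natDegree_pow_le_of_le 2 hdx)
        omega
      have b2 : (X * a ^ 2 * (derivative x) ^ 3).natDegree ≤ 3 * d + 2 * m - 2 := by
        have := natDegree_mul_le_of_le (natDegree_mul_le_of_le hX ha2)
          (natDegree_pow_le_of_le 3 hdx)
        omega
      have b4 : (X * a * x * (derivative a) ^ 2 * derivative x).natDegree ≤ 3 * d + 2 * m - 2 := by
        have := natDegree_mul_le_of_le (natDegree_mul_le_of_le (natDegree_mul_le_of_le
          (natDegree_mul_le_of_le hX hd.le) hm.symm.le) (natDegree_pow_le_of_le 2 hda)) hdx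
        omega
      have b5 := natDegree_add_le_of_degree_le (natDegree_add_le_of_degree_le
        (natDegree_add_le_of_degree_le b1 b2) b3) b4
      omega
  rw [hsm, add_zero]

/-- the additive part of the phase -/
noncomputable def lin (c : K) (g a x : K[X]) : K :=
  c⁻¹ ^ 4 * lc (g ^ 4) (X * (C c * g) * derivative (C c * g) * (derivative x) ^ 2) +
    c⁻¹ ^ 2 * lc (g ^ 2 * a ^ 2)
      (X * (x * (derivative a) ^ 3 + a * (derivative a) ^ 2 * derivative x))

lemma lin_add (c : K) (g a x y : K[X]) : lin c g a (x + y) = lin c g a x + lin c g a y := by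
  unfold lin
  have e1 : X * (C c * g) * derivative (C c * g) * (derivative (x + y)) ^ 2 =
      X * (C c * g) * derivative (C c * g) * (derivative x) ^ 2 +
        X * (C c * g) * derivative (C c * g) * (derivative y) ^ 2 := by
    rw [derivative_add, CharTwo.add_sq]; ring
  have e2 : X * ((x + y) * (derivative a) ^ 3 + a * (derivative a) ^ 2 * derivative (x + y)) =
      X * (x * (derivative a) ^ 3 + a * (derivative a) ^ 2 * derivative x) +
        X * (y * (derivative a) ^ 3 + a * (derivative a) ^ 2 * derivative y) := by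
    rw [derivative_add]; ring
  rw [e1, e2, lc_add, lc_add]
  ring

lemma phi_aff [Fintype K] {d : ℕ} (c : K) {g a x : K[X]} (hg : g.Monic) (ha : a.Monic)
    (hd : a.natDegree = d) (hgd : g.natDegree < d) (hx : x.natDegree ≤ g.natDegree) :
    phi c g (a + x) = phi c g a + lin c g a x := by
  have e1 : ∀ z : K[X], lc (g ^ 4) ((z * derivative z + X * (C c * g) * derivative (C c * g)) *
      (derivative z) ^ 2) = lc (g ^ 4) (X * (C c * g) * derivative (C c * g) * (derivative z) ^ 2) := by
    intro z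
    rw [add_mul, lc_add, first_zero hg, zero_add]
  unfold phi lin
  rw [e1, e1, second hg ha hd hgd hx]
  have e2 : X * (C c * g) * derivative (C c * g) * (derivative (a + x)) ^ 2 =
      X * (C c * g) * derivative (C c * g) * (derivative a) ^ 2 +
        X * (C c * g) * derivative (C c * g) * (derivative x) ^ 2 := by
    rw [derivative_add, CharTwo.add_sq]; ring
  rw [e2, lc_add]
  ring

theorem addI : S_addI := by
  intro K _ _ _ d c g a x y hc hg ha hd hgd hx hy
  have hxy : (x + y).natDegree ≤ g.natDegree := natDegree_add_le_of_degree_le hx hy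
  rw [← Pool.Agent.H985.KP.Loc2.sg_add, ← Pool.Agent.H985.KP.Loc2.sg_add]
  congr 1
  rw [add_assoc a x y, phi_aff c hg ha hd hgd hxy, phi_aff c hg ha hd hgd hx,
    phi_aff c hg ha hd hgd hy, lin_add]
  ring

end Pool.Agent.H980.SQ
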