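import Pool.Agent.H560.SQ.Stm
import Pool.Agent.H985.FC.Full
import Pool.Agent.H604.FC.Asm4
import Pool.Agent.H524.FC.Win5

/-!
Task SQW of project SQ (helper560): the sum over `x` for a typical `b` (helper980).
-/

set_option autoImplicit false

namespace Pool.Agent.H980.SQ

open Polynomial
open Pool.Agent.H560.SQ
open Pool.Agent.H985.Chow (mob MD)
open Pool.Agent.H985.KP (PA Good2)
open Pool.Agent.H985.FC (GP)
open Pool.Agent.H604.FC (S_win4)
open Pool.Agent.H604.FC.Asm4 (omega_bound tend num_est)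
open Pool.Agent.H985.Chow.Asm (window_finsum avg mem_of_natDegree_lt natDegree_lt_of_mem card_deg)
open Pool.Agent.H524.FC (not_dvd_der)

theorem sqW_aux (h4 : S_win4) (hw : S_winI) : S_sqW := by
  classical
  intro K _ _ _ ε δ E₀ hε hδ
  obtain ⟨M, hM1, hM⟩ := h4 1 1
  obtain ⟨q, hqdef⟩ : ∃ q : ℝ, q = Fintype.card K := ⟨_, rfl⟩
  have hq1 : (1 : ℝ) < q := by rw [hqdef]; exact_mod_cast Fintype.one_lt_card
  have hq0 : (0 : ℝ) < q := by linarith
  obtain ⟨κ, hκ⟩ : ∃ κ : ℝ, κ = δ / 18 := ⟨_, rfl⟩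
  have hκ0 : 0 < κ := by rw [hκ]; positivity
  obtain ⟨A, hA1, hA⟩ := omega_bound K M hM1 (q ^ (κ / 2)) (Real.one_lt_rpow hq1 (by positivity))
  obtain ⟨C₀, hC₀⟩ : ∃ C₀ : ℕ, C₀ = 5 * E₀ + 1 := ⟨_, rfl⟩
  have hρ1 : q ^ (-(κ / 2)) < 1 := Real.rpow_lt_one_of_one_lt_of_neg hq1 (by linarith)
  obtain ⟨m1, hm1⟩ := tend (A * q) (q ^ (-(κ / 2))) (ε ^ (2 ^ (6 * 1 + 1))) (by positivity)
    hρ1 (by positivity)
  obtain ⟨m4, hm4⟩ := exists_nat_gt (2 * (C₀ + E₀ + 1) / δ)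
  refine ⟨m1 + m4 + C₀ + 5, ?_⟩
  intro β hβ d c b Z hβd hc hb hgood hZ hZd
  obtain ⟨e, h₁, h₂, hbe, he, hh₁, hh₂, heh, hsq, -, hE₀, hδ1, hδ2⟩ := hgood
  have hh12 : (h₁ * h₂).Monic := hh₁.mul hh₂
  have hdeh : (e * (h₁ * h₂)).natDegree = β := by rw [← hbe]; exact hb.2
  have hdd : e.natDegree + (h₁.natDegree + h₂.natDegree) = β := by
    rw [← hdeh, he.natDegree_mul hh12, hh₁.natDegree_mul hh₂]
  obtain ⟨E, hE⟩ : ∃ E, E = e ^ 5 := ⟨_, rfl⟩
  have hE0 : E ≠ 0 := by rw [hE]; exact pow_ne_zero 5 he.ne_zero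
  have hEd : E.natDegree = 5 * e.natDegree := by rw [hE, natDegree_pow]
  obtain ⟨L, hL⟩ : ∃ L, L = β + 1 - E.natDegree := ⟨_, rfl⟩
  have hL0 : β ≤ L + C₀ := by omega
  have hL2 : L + E.natDegree = β + 1 := by omega
  have hL1 : 1 ≤ L := by omega
  have hL3 : (β : ℝ) ≤ L + C₀ := by exact_mod_cast hL0
  have hL4 : (L : ℝ) ≤ β + 1 := by exact_mod_cast (by omega : L ≤ β + 1)
  have hdm4 : 2 * ((C₀ : ℝ) + E₀ + 1) ≤ δ * β := by
    have h1 : (m4 : ℝ) ≤ β := by exact_mod_cast (by omega : m4 ≤ β)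
    have h2 : 2 * ((C₀ : ℝ) + E₀ + 1) / δ ≤ β := hm4.le.trans h1
    rw [div_le_iff₀ hδ] at h2
    linarith
  obtain ⟨D, hD⟩ : ∃ D, D = ⌊δ * β / 2⌋₊ := ⟨_, rfl⟩
  obtain ⟨T, hT⟩ : ∃ T, T = D / (6 * 1 + 3) := ⟨_, rfl⟩
  have hd0 : (0 : ℝ) ≤ β := Nat.cast_nonneg β
  have hD1 : (D : ℝ) ≤ δ * β / 2 := by
    rw [hD]
    exact Nat.floor_le (by positivity)
  have hD2 : δ * β / 2 < D + 1 := by
    rw [hD]
    exact Nat.lt_floor_add_one (δ * β / 2)
  have hT1 : (6 * 1 + 3) * T ≤ D := by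
    rw [hT]
    exact Nat.mul_div_le _ _
  have hT2 : D + 1 ≤ (6 * 1 + 3) * (T + 1) := by
    rw [hT]
    exact Nat.lt_mul_div_succ D (by omega)
  have hT3 : κ * β ≤ T + 1 := by
    have h1 : (D : ℝ) + 1 ≤ (6 * 1 + 3) * (T + 1) := by exact_mod_cast hT2
    have h2 : δ * β / 2 ≤ (6 * 1 + 3) * (T + 1) := by linarith
    rw [hκ]
    linarith
  have hC₀0 : (0 : ℝ) ≤ C₀ := Nat.cast_nonneg _
  have hE₀0 : (0 : ℝ) ≤ E₀ := Nat.cast_nonneg _
  have hE₀' : (e.natDegree : ℝ) ≤ E₀ := by exact_mod_cast hE₀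
  have hdd' : (e.natDegree : ℝ) + (h₁.natDegree + h₂.natDegree) = β := by exact_mod_cast hdd
  have hh1L : h₁.natDegree + D ≤ L := by
    have h1 : (h₁.natDegree : ℝ) + D ≤ L := by nlinarith
    exact_mod_cast h1
  have hh2L : h₂.natDegree + D ≤ L := by
    have h1 : (h₂.natDegree : ℝ) + D ≤ L := by
      have h4 : (0 : ℝ) ≤ e.natDegree := Nat.cast_nonneg _
      nlinarith
    exact_mod_cast h1
  have hh2L' : L ≤ 2 * h₂.natDegree := by
    have h1 : (L : ℝ) ≤ 2 * h₂.natDegree := by nlinarith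
    exact_mod_cast h1
  have hEh : IsCoprime E (h₁ * h₂) := by rw [hE]; exact heh.pow_left
  -- the windows
  have hφ : ∀ u ∈ degreeLT K L, E * u ∈ degreeLT K (β + 1) := by
    intro u hu
    apply mem_of_natDegree_lt
    by_cases hu0 : u = 0
    · left
      rw [hu0, mul_zero]
    · right
      have h1 := natDegree_lt_of_mem hu hu0
      rw [natDegree_mul hE0 hu0]
      omega
  have havg := avg (β + 1) L E hφ (fun x => (mob ((Z + x) ^ 2 + X * (C c * b) ^ 2) : ℝ)) ε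
  rw [← hqdef] at havg
  rw [window_finsum, ← hqdef, mul_comm ε]
  refine havg ?_
  intro v hv
  have hvd : v = 0 ∨ v.natDegree < d := by
    by_cases hv0 : v = 0
    · exact Or.inl hv0
    · right
      have := natDegree_lt_of_mem hv hv0
      omega
  have hvdeg : v.degree < Z.degree := by
    rcases hvd with h0 | h0
    · rw [h0, degree_zero]
      exact bot_lt_iff_ne_bot.2 (fun h => hZ.ne_zero (degree_eq_bot.1 h))
    · exact degree_lt_degree (by rw [hZd]; exact h0)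
  have hZv : (Z + v).Monic := hZ.add_of_left hvdeg
  have hZvd : (Z + v).natDegree = d := by
    rw [← hZd]
    exact natDegree_eq_of_degree_eq (degree_add_eq_left_of_degree_lt hvdeg)
  obtain ⟨η, χ, hη, -, hW⟩ := hw K d L c (Z + v) e (h₁ * h₂) E hc he hh12 heh hsq hE0
    (dvd_of_eq hE.symm) hEh hL1 hZv hZvd (by rw [hdeh]; exact hβd) (by rw [hdeh]; omega)
  have hwm := hM K L D T E (fun _ => C c * (e * (h₁ * h₂))) (fun _ => h₁) (fun _ => h₂)
    (fun _ => Z + v) (fun _ => 1) (fun _ => 0) 0 χ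
    (fun _ => ⟨hh₁, hh₂, hsq, hEh, hh1L, hh2L, fun P hP => not_dvd_der hc heh hsq hP.2.1 hP.2.2⟩)
    (fun i j hij => absurd (Subsingleton.elim i j) hij) ⟨0, rfl⟩
    (fun i j hij _ => absurd (Subsingleton.elim i j) hij) hh2L' hT1
  rw [window_finsum, ← hqdef] at hwm
  simp only [Finset.univ_unique, Finset.prod_singleton, Finset.sum_singleton] at hwm
  have hMw : M ^ (PA (h₁ * h₂)).ncard ≤ A * (q ^ (κ / 2)) ^ β :=
    hA (h₁ * h₂) hh12.ne_zero β (by rw [hh₁.natDegree_mul hh₂]; omega)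
  have hest := num_est q hq1 κ A (by linarith) β T hT3 _ hMw
  have hfin : |∑ u : degreeLT K L, χ (u : K[X]) *
      ∏ᶠ P ∈ PA (h₁ * h₂), GP (C c * (e * (h₁ * h₂))) 1 P (Z + v + E * (u : K[X]))| ^
        (2 ^ (6 * 1 + 1)) ≤ (q ^ L * ε) ^ (2 ^ (6 * 1 + 1)) := by
    refine hwm.trans ?_
    rw [mul_pow, ← pow_mul, mul_comm (M ^ _), mul_div_assoc]
    apply mul_le_mul_of_nonneg_left _ (by positivity)
    exact hest.trans (hm1 β (by omega))
  have habs := (pow_le_pow_iff_left₀ (abs_nonneg _) (by positivity)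
    (pow_ne_zero _ (by norm_num))).1 hfin
  have hterm : ∀ u : degreeLT K L,
      (mob ((Z + (v + E * (u : K[X]))) ^ 2 + X * (C c * b) ^ 2) : ℝ) =
        η * (χ (u : K[X]) *
          ∏ᶠ P ∈ PA (h₁ * h₂), GP (C c * (e * (h₁ * h₂))) 1 P (Z + v + E * (u : K[X]))) := by
    intro u
    rw [← add_assoc, hbe]
    exact hW u (mem_degreeLT.1 u.2)
  rw [Finset.sum_congr rfl (fun u _ => hterm u), ← Finset.mul_sum, abs_mul]
  calc |η| * |∑ u : degreeLT K L, χ (u : K[X]) *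
        ∏ᶠ P ∈ PA (h₁ * h₂), GP (C c * (e * (h₁ * h₂))) 1 P (Z + v + E * (u : K[X]))|
      ≤ 1 * (q ^ L * ε) := mul_le_mul hη habs (abs_nonneg _) zero_le_one
    _ = _ := one_mul _

/-- **Task SQW.** -/
theorem sqW (hw : S_winI) : S_sqW := sqW_aux Pool.Agent.H985.FC.win4s hw

end Pool.Agent.H980.SQ
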